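import Mathlib

/-!
# Commuting coefficients after left multiplication for singular pencils
-/

set_option autoImplicit false
set_option linter.unusedSectionVars false

open Polynomial

namespace Pool.Agent.Results.MP_3c4fb9_al.CommutingCoefficients

section Surj

variable {ι : Type} [Fintype ι] [DecidableEq ι] (e : ι → ℕ)

/-- All components have degree at most `e s`. -/
def Dom (x : ι → ℂ[X]) : Prop := ∀ s, (x s).degree < ((e s + 1 : ℕ) : WithBot ℕ)

/-- Killed by the columns in `T`. -/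
def Ker (T : Finset ι) (c : ι → ι → ℂ[X]) (x : ι → ℂ[X]) : Prop :=
  ∀ t ∈ T, ∑ s, c t s * x s = 0

variable {e}

theorem Dom.add {x y : ι → ℂ[X]} (hx : Dom e x) (hy : Dom e y) : Dom e (x + y) := fun s =>
  lt_of_le_of_lt (degree_add_le _ _) (max_lt (hx s) (hy s))

theorem Dom.sub {x y : ι → ℂ[X]} (hx : Dom e x) (hy : Dom e y) : Dom e (x - y) := fun s =>
  lt_of_le_of_lt (degree_sub_le _ _) (max_lt (hx s) (hy s))

theorem sum_add' (d x y : ι → ℂ[X]) :
    ∑ s, d s * (x + y) s = ∑ s, d s * x s + ∑ s, d s * y s := by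
  simp only [Pi.add_apply, mul_add, Finset.sum_add_distrib]

theorem sum_sub' (d x y : ι → ℂ[X]) :
    ∑ s, d s * (x - y) s = ∑ s, d s * x s - ∑ s, d s * y s := by
  simp only [Pi.sub_apply, mul_sub, Finset.sum_sub_distrib]

theorem Ker.add {T : Finset ι} {c : ι → ι → ℂ[X]} {x y : ι → ℂ[X]} (hx : Ker T c x)
    (hy : Ker T c y) : Ker T c (x + y) := fun t ht => by
  rw [sum_add', hx t ht, hy t ht, add_zero]

theorem Ker.sub {T : Finset ι} {c : ι → ι → ℂ[X]} {x y : ι → ℂ[X]} (hx : Ker T c x)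
    (hy : Ker T c y) : Ker T c (x - y) := fun t ht => by
  rw [sum_sub', hx t ht, hy t ht, sub_zero]

theorem deg_mul_lt {p q : ℂ[X]} {a b : ℕ} (hp : p.natDegree ≤ a)
    (hq : q.degree < (b : WithBot ℕ)) : (p * q).degree < ((a + b : ℕ) : WithBot ℕ) := by
  by_cases h : q = 0
  · rw [h, mul_zero, degree_zero]
    exact WithBot.bot_lt_coe _
  · have h1 : q.natDegree < b := (natDegree_lt_iff_degree_lt h).2 hq
    refine lt_of_le_of_lt degree_le_natDegree ?_
    have h2 : (p * q).natDegree ≤ p.natDegree + q.natDegree := natDegree_mul_le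
    have h3 : (p * q).natDegree < a + b := by omega
    exact_mod_cast h3

theorem deg_of_mul_lt {v g : ℂ[X]} (hv : v.Monic) {l : ℕ}
    (h : (v * g).degree < ((l + v.natDegree : ℕ) : WithBot ℕ)) : g.degree < (l : WithBot ℕ) := by
  by_cases hg : g = 0
  · rw [hg, degree_zero]
    exact WithBot.bot_lt_coe _
  · have h1 : v * g ≠ 0 := mul_ne_zero hv.ne_zero hg
    have h2 := (natDegree_lt_iff_degree_lt h1).2 h
    rw [natDegree_mul hv.ne_zero hg] at h2
    exact (natDegree_lt_iff_degree_lt hg).1 (by omega)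

theorem div_lemma (w v : ℂ[X]) (hv : v.Monic) (hc : IsCoprime w v) (f : ℂ[X]) :
    ∃ q g : ℂ[X], q.degree < (v.natDegree : WithBot ℕ) ∧ f = w * q + v * g := by
  obtain ⟨a, b, h⟩ := hc
  refine ⟨(a * f) %ₘ v, b * f + w * ((a * f) /ₘ v), ?_, ?_⟩
  · have := degree_modByMonic_lt (a * f) hv
    rwa [degree_eq_natDegree hv.ne_zero] at this
  · have h2 := modByMonic_add_div (a * f) v
    have h3 : (a * f) %ₘ v = a * f - v * ((a * f) /ₘ v) := by
      rw [eq_sub_iff_add_eq]
      exact h2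
    rw [h3]
    linear_combination (-f) * h

theorem exists_v (w : ℂ[X]) (hw : w ≠ 0) (n : ℕ) :
    ∃ v : ℂ[X], v.Monic ∧ v.natDegree = n ∧ IsCoprime w v := by
  have h : ∃ ξ : ℂ, w.eval ξ ≠ 0 := by
    by_contra hne
    push Not at hne
    exact hw (Polynomial.funext (fun r => by simp [hne r]))
  obtain ⟨ξ, hξ⟩ := h
  refine ⟨(X - C ξ) ^ n, (monic_X_sub_C ξ).pow n, ?_, ?_⟩
  · rw [natDegree_pow, natDegree_X_sub_C, mul_one]
  · apply IsCoprime.pow_right
    apply IsCoprime.symm
    rw [(irreducible_X_sub_C ξ).coprime_iff_not_dvd, dvd_iff_isRoot]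
    exact hξ

/-- The partial column `d` covers all polynomials of degree `< l`, using vectors that vanish
on `Z`. -/
def Cov (e : ι → ℕ) (T : Finset ι) (c : ι → ι → ℂ[X]) (l : ℕ) (d : ι → ℂ[X]) (Z : Set ι) :
    Prop :=
  ∀ g : ℂ[X], g.degree < (l : WithBot ℕ) → ∃ x : ι → ℂ[X], Dom e x ∧ Ker T c x ∧
    ∑ s, d s * x s = g ∧ ∀ s ∈ Z, x s = 0

/-- The block `p` still has `r` free dimensions. -/
def Lift (e : ι → ℕ) (T : Finset ι) (c : ι → ι → ℂ[X]) (d : ι → ℂ[X]) (p : ι) (w : ℂ[X])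
    (r : ℕ) (Z : Set ι) : Prop :=
  ∀ q : ℂ[X], q.degree < (r : WithBot ℕ) → ∃ x : ι → ℂ[X], Dom e x ∧ Ker T c x ∧
    ∑ s, d s * x s = 0 ∧ x p = w * q ∧ ∀ s ∈ Z, s ≠ p → x s = 0

theorem step {T : Finset ι} {c : ι → ι → ℂ[X]} {l : ℕ} {d : ι → ℂ[X]} {Z : Set ι} {p : ι}
    {w : ℂ[X]} {r : ℕ} (n : ℕ) (hp : p ∈ Z) (hd : ∀ s ∈ Z, d s = 0)
    (hdeg : ∀ s, d s ≠ 0 → (d s).natDegree + e s + 1 ≤ l)
    (hcov : Cov e T c l d Z) (hlift : Lift e T c d p w r Z) (hw : w ≠ 0)
    (hwr : w.natDegree + r ≤ e p + 1) (hn : n ≤ r) (hl : e p + 1 ≤ l + n) :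
    ∃ (d' : ι → ℂ[X]) (w' : ℂ[X]),
      (∀ s ∈ Z, s ≠ p → d' s = 0) ∧
      (∀ s, d' s ≠ 0 → (d' s).natDegree + e s + 1 ≤ l + n) ∧
      Cov e T c (l + n) d' (Z \ {p}) ∧ w' ≠ 0 ∧ w'.natDegree + (r - n) ≤ e p + 1 ∧
      Lift e T c d' p w' (r - n) (Z \ {p}) ∧
      (∀ x : ι → ℂ[X], ∑ s, d s * x s = 0 → x p = 0 → ∑ s, d' s * x s = 0) := by
  obtain ⟨v, hv, hvn, hvc⟩ := exists_v w hw n
  have hsum : ∀ x : ι → ℂ[X], ∑ s, (v * d s + if s = p then 1 else 0) * x s =
      v * ∑ s, d s * x s + x p := by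
    intro x
    simp only [add_mul, Finset.sum_add_distrib, Finset.mul_sum, mul_assoc, ite_mul, one_mul,
      zero_mul, Finset.sum_ite_eq', Finset.mem_univ, if_true]
  refine ⟨fun s => v * d s + if s = p then 1 else 0, w * v, ?_, ?_, ?_, ?_, ?_, ?_, ?_⟩
  · intro s hs hsp
    simp only [hd s hs, mul_zero, if_neg hsp, add_zero]
  · intro s hs
    by_cases hsp : s = p
    · subst hsp
      simp only [hd s hp, mul_zero, zero_add, if_true, natDegree_one]
      omega
    · simp only [if_neg hsp, add_zero] at hs ⊢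
      have h1 : d s ≠ 0 := right_ne_zero_of_mul hs
      have h2 := hdeg s h1
      have h3 : (v * d s).natDegree ≤ v.natDegree + (d s).natDegree := natDegree_mul_le
      omega
  · intro f hf
    obtain ⟨q, g, hq, hfg⟩ := div_lemma w v hv hvc f
    rw [hvn] at hq
    have hqr : q.degree < (r : WithBot ℕ) := lt_of_lt_of_le hq (by exact_mod_cast hn)
    have hwq : (w * q).degree < ((l + n : ℕ) : WithBot ℕ) := by
      refine lt_of_lt_of_le (deg_mul_lt le_rfl hq) ?_
      have : w.natDegree + n ≤ l + n := by omega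
      exact_mod_cast this
    have hg : g.degree < (l : WithBot ℕ) := by
      apply deg_of_mul_lt hv
      rw [hvn]
      have : v * g = f - w * q := by rw [hfg]; ring
      rw [this]
      exact lt_of_le_of_lt (degree_sub_le _ _) (max_lt hf hwq)
    obtain ⟨x1, h11, h12, h13, h14, h15⟩ := hlift q hqr
    obtain ⟨x2, h21, h22, h23, h24⟩ := hcov g hg
    refine ⟨x1 + x2, h11.add h21, h12.add h22, ?_, ?_⟩
    · rw [hsum, sum_add', h13, h23, Pi.add_apply, h14, h24 p hp, hfg]
      ring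
    · intro s hs
      rw [Pi.add_apply, h15 s hs.1 hs.2, h24 s hs.1, add_zero]
  · exact mul_ne_zero hw hv.ne_zero
  · rw [natDegree_mul hw hv.ne_zero, hvn]
    omega
  · intro q hq
    have hvq : (v * q).degree < (r : WithBot ℕ) := by
      refine lt_of_lt_of_le (deg_mul_lt (le_of_eq hvn) hq) ?_
      have : n + (r - n) ≤ r := by omega
      exact_mod_cast this
    have hwq : (w * q).degree < (l : WithBot ℕ) := by
      refine lt_of_lt_of_le (deg_mul_lt le_rfl hq) ?_
      have : w.natDegree + (r - n) ≤ l := by omega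
      exact_mod_cast this
    obtain ⟨x1, h11, h12, h13, h14, h15⟩ := hlift _ hvq
    obtain ⟨x2, h21, h22, h23, h24⟩ := hcov _ hwq
    refine ⟨x1 - x2, h11.sub h21, h12.sub h22, ?_, ?_, ?_⟩
    · rw [hsum, sum_sub', h13, h23, Pi.sub_apply, h14, h24 p hp]
      ring
    · rw [Pi.sub_apply, h14, h24 p hp]
      ring
    · intro s hs _
      rw [Pi.sub_apply, h15 s hs.1 hs.2, h24 s hs.1, sub_zero]
  · intro x hx hxp
    rw [hsum, hx, hxp]
    ring

theorem Lift.mono {T : Finset ι} {c : ι → ι → ℂ[X]} {d : ι → ℂ[X]} {Z Z' : Set ι} {p : ι}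
    {w : ℂ[X]} {r : ℕ} (h : Lift e T c d p w r Z) (hZ : ∀ s ∈ Z', s ≠ p → s ∈ Z) :
    Lift e T c d p w r Z' := by
  intro q hq
  obtain ⟨x, h1, h2, h3, h4, h5⟩ := h q hq
  exact ⟨x, h1, h2, h3, h4, fun s hs hsp => h5 s (hZ s hs hsp) hsp⟩

theorem Cov.mono {T : Finset ι} {c : ι → ι → ℂ[X]} {l : ℕ} {d : ι → ℂ[X]} {Z Z' : Set ι}
    (h : Cov e T c l d Z) (hZ : Z' ⊆ Z) : Cov e T c l d Z' := by
  intro g hg
  obtain ⟨x, h1, h2, h3, h4⟩ := h g hg
  exact ⟨x, h1, h2, h3, fun s hs => h4 s (hZ hs)⟩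

/-- A fresh block. -/
theorem fresh_lift {T : Finset ι} {c : ι → ι → ℂ[X]} {d : ι → ℂ[X]} {Z : Set ι} {s : ι}
    (hc : ∀ t ∈ T, c t s = 0) (hd : d s = 0) : Lift e T c d s 1 (e s + 1) Z := by
  intro q hq
  refine ⟨Pi.single s q, ?_, ?_, ?_, ?_, ?_⟩
  · intro s'
    by_cases h : s' = s
    · subst h
      rw [Pi.single_eq_same]
      exact hq
    · rw [Pi.single_eq_of_ne h, degree_zero]
      exact WithBot.bot_lt_coe _
  · intro t ht
    apply Finset.sum_eq_zero
    intro s' _
    by_cases h : s' = s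
    · subst h
      rw [hc t ht, zero_mul]
    · rw [Pi.single_eq_of_ne h, mul_zero]
  · apply Finset.sum_eq_zero
    intro s' _
    by_cases h : s' = s
    · subst h
      rw [hd, zero_mul]
    · rw [Pi.single_eq_of_ne h, mul_zero]
  · rw [Pi.single_eq_same, one_mul]
  · intro s' _ h
    rw [Pi.single_eq_of_ne h]

/-- The size count of a list of blocks. -/
def tot (e : ι → ℕ) (L : List ι) : ℕ := (L.map (fun s => e s + 1)).sum

theorem tot_cons (e : ι → ℕ) (s : ι) (L : List ι) : tot e (s :: L) = e s + 1 + tot e L := by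
  simp [tot]

/-- The blocks that must not be touched. -/
def Zs (e : ι → ℕ) (M : ℕ) (L : List ι) : Set ι := {s | s ∈ L ∨ M ≤ e s}

/-- The conclusion of the construction of one column. -/
def Done (e : ι → ℕ) (T : Finset ι) (c : ι → ι → ℂ[X]) (M l r : ℕ) (p : ι) (L : List ι) : Prop :=
  ∃ (d' : ι → ℂ[X]) (p' : ι) (w' : ℂ[X]) (r' : ℕ) (L' : List ι),
    (p' :: L').Sublist (p :: L) ∧ (∀ s ∈ Zs e M L', d' s = 0) ∧
    (∀ s, d' s ≠ 0 → (d' s).natDegree + e s + 1 ≤ M) ∧
    Cov e T c M d' (Zs e M L') ∧ w' ≠ 0 ∧ w'.natDegree + r' ≤ e p' + 1 ∧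
    Lift e T c d' p' w' r' (Zs e M L') ∧ r' + tot e L' + (M - l) = r + tot e L

theorem finish {T : Finset ι} {c : ι → ι → ℂ[X]} {M l r : ℕ} {p : ι} {L : List ι}
    {d : ι → ℂ[X]} {w : ℂ[X]} (hnd : (p :: L).Nodup) (hM : ∀ s ∈ p :: L, e s + 1 ≤ M)
    (hl : l ≤ M) (hd : ∀ s, s = p ∨ s ∈ Zs e M L → d s = 0)
    (hdeg : ∀ s, d s ≠ 0 → (d s).natDegree + e s + 1 ≤ l)
    (hcov : Cov e T c l d {s | s = p ∨ s ∈ Zs e M L})
    (hlift : Lift e T c d p w r (Zs e M L)) (hw : w ≠ 0) (hwr : w.natDegree + r ≤ e p + 1)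
    (hr : M - l ≤ r) : Done e T c M l r p L := by
  have hpM : e p + 1 ≤ M := hM p (by simp)
  have hpL : p ∉ L := (List.nodup_cons.1 hnd).1
  have hpZ : p ∉ Zs e M L := by
    rintro (h | h)
    · exact hpL h
    · omega
  obtain ⟨d', w', h1, h2, h3, h4, h5, h6, -⟩ := step (Z := {s | s = p ∨ s ∈ Zs e M L}) (M - l)
    (Or.inl rfl) hd hdeg hcov (hlift.mono (fun s hs hsp => hs.resolve_left hsp)) hw hwr hr
    (by omega)
  have hsub : Zs e M L ⊆ {s | s = p ∨ s ∈ Zs e M L} \ {p} := fun s hs =>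
    ⟨Or.inr hs, fun h => hpZ (by rw [Set.mem_singleton_iff] at h; rwa [h] at hs)⟩
  have hMl : l + (M - l) = M := by omega
  rw [hMl] at h2 h3
  refine ⟨d', p, w', r - (M - l), L, List.Sublist.refl _, ?_, h2, h3.mono hsub, h4, h5,
    h6.mono (fun s hs _ => hsub hs), ?_⟩
  · intro s hs
    exact h1 s (Or.inr hs) (fun h => hpZ (by rwa [h] at hs))
  · omega

theorem column {T : Finset ι} {c : ι → ι → ℂ[X]} {M r : ℕ} {p : ι} {w : ℂ[X]} (hw : w ≠ 0)
    (hwr : w.natDegree + r ≤ e p + 1) : ∀ (L : List ι) (l : ℕ) (d : ι → ℂ[X]),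
    (p :: L).Nodup → (p :: L).Pairwise (fun a b => e a ≤ e b) → (∀ s ∈ p :: L, e s + 1 ≤ M) →
    (l = 0 ∨ e p + 1 ≤ l) → l ≤ M → M - l ≤ r + tot e L →
    (∀ s, s = p ∨ s ∈ Zs e M L → d s = 0) →
    (∀ s, d s ≠ 0 → (d s).natDegree + e s + 1 ≤ l) →
    Cov e T c l d {s | s = p ∨ s ∈ Zs e M L} →
    Lift e T c d p w r (Zs e M L) → (∀ s ∈ L, ∀ t ∈ T, c t s = 0) →
    Done e T c M l r p L := by
  intro L
  induction L with
  | nil =>
    intro l d hnd hs hM hl0 hl hR hd hdeg hcov hlift hc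
    exact finish hnd hM hl hd hdeg hcov hlift hw hwr (by simpa [tot] using hR)
  | cons s1 L1 ih =>
    intro l d hnd hs hM hl0 hl hR hd hdeg hcov hlift hc
    have hpM : e p + 1 ≤ M := hM p (by simp)
    have hsM : e s1 + 1 ≤ M := hM s1 (by simp)
    have hps : e p ≤ e s1 := (List.pairwise_cons.1 hs).1 s1 (by simp)
    have hpL : p ∉ s1 :: L1 := (List.nodup_cons.1 hnd).1
    have hsL : s1 ∉ L1 := (List.nodup_cons.1 (List.nodup_cons.1 hnd).2).1
    have hps1 : p ≠ s1 := fun h => hpL (by simp [h])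
    have hpZ : p ∉ Zs e M (s1 :: L1) := by
      rintro (h | h)
      · exact hpL h
      · omega
    have hs1Z : s1 ∉ Zs e M L1 := by
      rintro (h | h)
      · exact hsL h
      · omega
    have hds1 : d s1 = 0 := hd s1 (Or.inr (Or.inl (by simp)))
    rw [tot_cons] at hR
    by_cases h1 : e s1 + 1 ≤ M - l
    · obtain ⟨d', w', g1, g2, g3, g4, g5, g6, g7⟩ := step (Z := {s | s = p ∨ s ∈ Zs e M (s1 :: L1)})
        (r := e s1 + 1) (p := s1) (w := 1) (e s1 + 1) (Or.inr (Or.inl (by simp))) hd hdeg hcov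
        (fresh_lift (hc s1 (by simp)) hds1) one_ne_zero (by simp) le_rfl (by omega)
      have hsub : {s | s = p ∨ s ∈ Zs e M L1} ⊆ {s | s = p ∨ s ∈ Zs e M (s1 :: L1)} \ {s1} := by
        rintro s (hs' | hs')
        · refine ⟨Or.inl hs', ?_⟩
          rw [hs']
          exact hps1
        · refine ⟨Or.inr ?_, ?_⟩
          · rcases hs' with h | h
            · exact Or.inl (List.mem_cons_of_mem _ h)
            · exact Or.inr h
          · intro h
            rw [Set.mem_singleton_iff] at h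
            rw [h] at hs'
            exact hs1Z hs'
      have hnd' : (p :: L1).Nodup := hnd.sublist (by simp)
      have hs' : (p :: L1).Pairwise (fun a b => e a ≤ e b) := hs.sublist (by simp)
      have hlift' : Lift e T c d' p w r (Zs e M L1) := by
        intro q hq
        obtain ⟨x, k1, k2, k3, k4, k5⟩ := hlift q hq
        refine ⟨x, k1, k2, g7 x k3 (k5 s1 (Or.inl (by simp)) (Ne.symm hps1)), k4, ?_⟩
        intro s hs hsp
        refine k5 s ?_ hsp
        rcases hs with h | h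
        · exact Or.inl (List.mem_cons_of_mem _ h)
        · exact Or.inr h
      obtain ⟨D, p', w'', r', L', m1, m2, m3, m4, m5, m6, m7, m8⟩ := ih (l + (e s1 + 1)) d' hnd' hs'
        (fun s hs => hM s (by
          rcases List.mem_cons.1 hs with h | h
          · simp [h]
          · simp [h])) (Or.inr (by omega)) (by omega) (by omega)
        (fun s hs => g1 s (hsub hs).1 (hsub hs).2) g2 (g3.mono hsub) hlift'
        (fun s hs => hc s (List.mem_cons_of_mem _ hs))
      refine ⟨D, p', w'', r', L', m1.trans (by simp), m2, m3, m4, m5, m6, m7, ?_⟩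
      rw [tot_cons]
      omega
    · by_cases h2 : M - l ≤ r
      · exact finish hnd hM hl hd hdeg hcov hlift hw hwr h2
      · have hpl : e p + 1 ≤ l := by
          rcases hl0 with h | h
          · omega
          · exact h
        obtain ⟨d1, w1, g1, g2, g3, g4, g5, g6, g7⟩ := step
          (Z := {s | s = p ∨ s ∈ Zs e M (s1 :: L1)}) r (Or.inl rfl) hd hdeg hcov
          (hlift.mono (fun s hs hsp => hs.resolve_left hsp)) hw hwr le_rfl (by omega)
        have hd1s : d1 s1 = 0 := g1 s1 (Or.inr (Or.inl (by simp))) (Ne.symm hps1)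
        obtain ⟨d2, w2, k1, k2, k3, k4, k5, k6, k7⟩ := step
          (Z := {s | s = p ∨ s ∈ Zs e M (s1 :: L1)} \ {p}) (r := e s1 + 1) (p := s1) (w := 1)
          (l := l + r) (d := d1)
          (M - l - r) ⟨Or.inr (Or.inl (by simp)), Ne.symm hps1⟩ (fun s hs => g1 s hs.1 hs.2) g2 g3
          (fresh_lift (hc s1 (by simp)) hd1s) one_ne_zero (by simp) (by omega) (by omega)
        have hsub : Zs e M L1 ⊆ ({s | s = p ∨ s ∈ Zs e M (s1 :: L1)} \ {p}) \ {s1} := by
          intro s hs'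
          have h3 : s ∈ Zs e M (s1 :: L1) := by
            rcases hs' with h | h
            · exact Or.inl (List.mem_cons_of_mem _ h)
            · exact Or.inr h
          refine ⟨⟨Or.inr h3, ?_⟩, ?_⟩
          · intro h
            rw [Set.mem_singleton_iff] at h
            rw [h] at h3
            exact hpZ h3
          · intro h
            rw [Set.mem_singleton_iff] at h
            rw [h] at hs'
            exact hs1Z hs'
        have hlM : l + r + (M - l - r) = M := by omega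
        rw [hlM] at k2 k3
        refine ⟨d2, s1, w2, e s1 + 1 - (M - l - r), L1, by simp, ?_, k2, k3.mono hsub, k4, k5,
          k6.mono (fun s hs _ => hsub hs), ?_⟩
        · intro s hs
          exact k1 s (hsub hs).1 (hsub hs).2
        · rw [tot_cons]
          omega

/-- The state of the construction after the columns in `T`. -/
structure State (e : ι → ℕ) (T : Finset ι) (c : ι → ι → ℂ[X]) (M : ℕ) (p : ι) (w : ℂ[X]) (r : ℕ)
    (L : List ι) : Prop where
  untouched : ∀ s ∈ Zs e M L, ∀ t ∈ T, c t s = 0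
  lift : Lift e T c 0 p w r (Zs e M L)
  surj : ∀ y : ι → ℂ[X], (∀ t, (y t).degree < (e t : WithBot ℕ)) → ∃ x : ι → ℂ[X], Dom e x ∧
    ∀ t ∈ T, ∑ s, c t s * x s = y t
  deg : ∀ t ∈ T, ∀ s, c t s ≠ 0 → (c t s).natDegree + e s + 1 ≤ e t
  w_ne : w ≠ 0
  w_deg : w.natDegree + r ≤ e p + 1
  nodup : (p :: L).Nodup
  sorted : (p :: L).Pairwise (fun a b => e a ≤ e b)
  lt : ∀ s ∈ p :: L, e s + 1 ≤ M

theorem one {T : Finset ι} {c : ι → ι → ℂ[X]} {M r : ℕ} {p : ι} {w : ℂ[X]} {L : List ι}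
    (h : State e T c M p w r L) {t : ι} (ht : t ∉ T) (hM : e t = M) (htot : M ≤ r + tot e L) :
    ∃ (c' : ι → ι → ℂ[X]) (p' : ι) (w' : ℂ[X]) (r' : ℕ) (L' : List ι),
      State e (insert t T) c' M p' w' r' L' ∧ r' + tot e L' + M = r + tot e L := by
  obtain ⟨D, p', w', r', L', h1, h2, h3, h4, h5, h6, h7, h8⟩ := column (T := T) (c := c) (M := M)
    h.w_ne h.w_deg L 0 0
    h.nodup h.sorted h.lt (Or.inl rfl) (Nat.zero_le _) (by omega) (fun _ _ => rfl)
    (fun s hs => absurd rfl hs)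
    (by
      intro g hg
      refine ⟨0, ?_, ?_, ?_, ?_⟩
      · intro s
        rw [Pi.zero_apply, degree_zero]
        exact WithBot.bot_lt_coe _
      · intro t _
        simp
      · have : g = 0 := by
          by_contra hne
          have := (natDegree_lt_iff_degree_lt hne).2 hg
          omega
        rw [this]
        simp
      · intro s _
        rfl) h.lift (fun s hs t ht => h.untouched s (Or.inl hs) t ht)
  have hLL : L'.Sublist L := by
    have := h1.tail
    simpa using this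
  have hZZ : Zs e M L' ⊆ Zs e M L := by
    rintro s (hs | hs)
    · exact Or.inl (hLL.subset hs)
    · exact Or.inr hs
  have hup : ∀ t' ∈ T, Function.update c t D t' = c t' := fun t' ht' =>
    Function.update_of_ne (fun h => ht (by rwa [h] at ht')) _ _
  refine ⟨Function.update c t D, p', w', r', L', ?_, by omega⟩
  refine ⟨?_, ?_, ?_, ?_, h5, h6, h.nodup.sublist h1, h.sorted.sublist h1,
    fun s hs => h.lt s (h1.subset hs)⟩
  · intro s hs t' ht'
    rcases Finset.mem_insert.1 ht' with h' | h'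
    · rw [h', Function.update_self]
      exact h2 s hs
    · rw [hup t' h']
      exact h.untouched s (hZZ hs) t' h'
  · intro q hq
    obtain ⟨x, k1, k2, k3, k4, k5⟩ := h7 q hq
    refine ⟨x, k1, ?_, by simp, k4, k5⟩
    intro t' ht'
    rcases Finset.mem_insert.1 ht' with h' | h'
    · rw [h', Function.update_self]
      exact k3
    · rw [hup t' h']
      exact k2 t' h'
  · intro y hy
    obtain ⟨x, hx1, hx2⟩ := h.surj y hy
    have hf : (y t - ∑ s, D s * x s).degree < (M : WithBot ℕ) := by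
      rw [← mem_degreeLT]
      apply Submodule.sub_mem
      · rw [mem_degreeLT, ← hM]
        exact hy t
      · apply Submodule.sum_mem
        intro s _
        rw [mem_degreeLT]
        by_cases hD : D s = 0
        · rw [hD, zero_mul, degree_zero]
          exact WithBot.bot_lt_coe _
        · refine lt_of_lt_of_le (deg_mul_lt le_rfl (hx1 s)) ?_
          have := h3 s hD
          have h' : (D s).natDegree + (e s + 1) ≤ M := by omega
          exact_mod_cast h'
    obtain ⟨x2, k1, k2, k3, k4⟩ := h4 _ hf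
    refine ⟨x + x2, hx1.add k1, ?_⟩
    intro t' ht'
    rcases Finset.mem_insert.1 ht' with h' | h'
    · rw [h', Function.update_self, sum_add', k3]
      ring
    · rw [hup t' h', sum_add', k2 t' h', hx2 t' h', add_zero]
  · intro t' ht' s hs
    rcases Finset.mem_insert.1 ht' with h' | h'
    · rw [h', Function.update_self] at hs ⊢
      rw [hM]
      exact h3 s hs
    · rw [hup t' h'] at hs ⊢
      exact h.deg t' h' s hs

theorem cols {M : ℕ} (K : Finset ι) : (∀ t ∈ K, e t = M) →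
    ∀ (T : Finset ι) (c : ι → ι → ℂ[X]) (r : ℕ) (p : ι) (w : ℂ[X]) (L : List ι),
    Disjoint K T → State e T c M p w r L → M * K.card ≤ r + tot e L →
    ∃ (c' : ι → ι → ℂ[X]) (p' : ι) (w' : ℂ[X]) (r' : ℕ) (L' : List ι),
      State e (K ∪ T) c' M p' w' r' L' ∧ r' + tot e L' + M * K.card = r + tot e L := by
  induction K using Finset.induction_on with
  | empty =>
    intro _ T c r p w L _ h _
    exact ⟨c, p, w, r, L, by simpa using h, by simp⟩
  | insert a K ha ih =>
    intro hK T c r p w L hdis h htot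
    rw [Finset.card_insert_of_notMem ha, Nat.mul_succ] at htot
    have haT : a ∉ T := fun h' => (Finset.disjoint_left.1 hdis) (Finset.mem_insert_self _ _) h'
    obtain ⟨c1, p1, w1, r1, L1, h1, h2⟩ := one h haT (hK a (Finset.mem_insert_self _ _))
      (by omega)
    obtain ⟨c2, p2, w2, r2, L2, h3, h4⟩ := ih (fun t ht => hK t (Finset.mem_insert_of_mem ht))
      (insert a T) c1 r1 p1 w1 L1 (by
        rw [Finset.disjoint_left]
        intro t ht ht'
        rcases Finset.mem_insert.1 ht' with h' | h'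
        · exact ha (by rwa [h'] at ht)
        · exact (Finset.disjoint_left.1 hdis) (Finset.mem_insert_of_mem ht) h') h1 (by omega)
    refine ⟨c2, p2, w2, r2, L2, ?_, ?_⟩
    · rw [Finset.insert_union, ← Finset.union_insert]
      exact h3
    · rw [Finset.card_insert_of_notMem ha, Nat.mul_succ]
      omega

/-- The blocks of size less than `M`. -/
def Bl (e : ι → ℕ) (M : ℕ) : Finset ι := Finset.univ.filter (fun s => e s < M)

/-- The blocks of size `M`. -/
def Eq' (e : ι → ℕ) (M : ℕ) : Finset ι := Finset.univ.filter (fun s => e s = M)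

theorem tot_append (e : ι → ℕ) (L L' : List ι) : tot e (L ++ L') = tot e L + tot e L' := by
  simp [tot]

theorem tot_const (e : ι → ℕ) {M : ℕ} (L : List ι) (h : ∀ s ∈ L, e s = M) :
    tot e L = L.length * (M + 1) := by
  induction L with
  | nil => simp [tot]
  | cons a L ih =>
    rw [tot_cons, ih (fun s hs => h s (List.mem_cons_of_mem _ hs)), h a (by simp),
      List.length_cons]
    ring

theorem levels (hcond : ∀ d, 1 ≤ d → d * (Eq' e d).card ≤ (Bl e d).card)
    (h0 : ∃ s, e s = 0) (M : ℕ) : 1 ≤ M →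
    ∃ (c : ι → ι → ℂ[X]) (p : ι) (w : ℂ[X]) (r : ℕ) (L : List ι),
      State e (Bl e M) c M p w r L ∧ r + tot e L = (Bl e M).card := by
  induction M with
  | zero => intro h; omega
  | succ M ih =>
    intro _
    rcases Nat.eq_zero_or_pos M with hM | hM
    · subst hM
      obtain ⟨s0, hs0⟩ := h0
      have hmem : ∀ s, s ∈ (Bl e 1).toList ↔ e s = 0 := by
        intro s
        simp [Bl]
      cases hL : (Bl e 1).toList with
      | nil =>
        have := (hmem s0).2 hs0
        rw [hL] at this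
        simp at this
      | cons p L =>
        have hz : ∀ s ∈ p :: L, e s = 0 := fun s hs => (hmem s).1 (by rwa [hL])
        refine ⟨0, p, 1, 1, L, ⟨fun _ _ _ _ => rfl, ?_, ?_, ?_, one_ne_zero, ?_, ?_, ?_, ?_⟩, ?_⟩
        · have := fresh_lift (e := e) (T := Bl e (0 + 1)) (c := 0) (d := 0) (Z := Zs e (0 + 1) L)
            (s := p) (fun _ _ => rfl) rfl
          rwa [hz p (by simp)] at this
        · intro y hy
          refine ⟨0, ?_, ?_⟩
          · intro s
            rw [Pi.zero_apply, degree_zero]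
            exact WithBot.bot_lt_coe _
          · intro t ht
            have h1 : e t = 0 := by
              simpa [Bl] using ht
            have h2 := hy t
            have : y t = 0 := by
              by_contra hne
              have := (natDegree_lt_iff_degree_lt hne).2 h2
              omega
            rw [this]
            simp
        · intro t _ s hs
          exact absurd rfl hs
        · rw [hz p (by simp)]
          simp
        · rw [← hL]
          exact Finset.nodup_toList _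
        · rw [List.pairwise_iff_forall_sublist]
          intro a b hab
          rw [hz a (hab.subset (by simp)), hz b (hab.subset (by simp))]
        · intro s hs
          rw [hz s hs]
        · have h1 : tot e (p :: L) = (p :: L).length * (0 + 1) := tot_const e _ hz
          rw [tot_cons, hz p (by simp)] at h1
          have h2 : (p :: L).length = (Bl e 1).card := by
            rw [← hL]
            exact Finset.length_toList _
          have h3 : (Bl e (0 + 1)).card = (Bl e 1).card := rfl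
          omega
    · obtain ⟨c, p, w, r, L, h1, h2⟩ := ih hM
      obtain ⟨c', p', w', r', L', h3, h4⟩ := cols (e := e) (M := M) (Eq' e M)
        (fun t ht => by simpa [Eq'] using ht) (Bl e M) c r p w L (by
          rw [Finset.disjoint_left]
          intro t ht ht'
          have a1 : e t = M := by simpa [Eq'] using ht
          have a2 : e t < M := by simpa [Bl] using ht'
          omega) h1 (by rw [h2]; exact hcond M hM)
      have hU : Eq' e M ∪ Bl e M = Bl e (M + 1) := by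
        ext s
        simp only [Finset.mem_union, Eq', Bl, Finset.mem_filter, Finset.mem_univ, true_and]
        omega
      have hZ : Zs e (M + 1) (L' ++ (Eq' e M).toList) = Zs e M L' := by
        ext s
        have : s ∈ (Eq' e M).toList ↔ e s = M := by simp [Eq']
        constructor
        · rintro (h | h)
          · rcases List.mem_append.1 h with h | h
            · exact Or.inl h
            · exact Or.inr (le_of_eq (this.1 h).symm)
          · exact Or.inr (by omega)
        · rintro (h | h)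
          · exact Or.inl (List.mem_append_left _ h)
          · rcases Nat.eq_or_lt_of_le h with h' | h'
            · exact Or.inl (List.mem_append_right _ (this.2 h'.symm))
            · exact Or.inr (by omega)
      rw [hU] at h3
      refine ⟨c', p', w', r', L' ++ (Eq' e M).toList, ⟨?_, ?_, h3.surj, h3.deg, h3.w_ne,
        h3.w_deg, ?_, ?_, ?_⟩, ?_⟩
      · rw [hZ]
        exact h3.untouched
      · rw [hZ]
        exact h3.lift
      · rw [← List.cons_append, List.nodup_append]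
        refine ⟨h3.nodup, Finset.nodup_toList _, ?_⟩
        intro a ha b hb hab
        have a1 := h3.lt a ha
        have a2 : e b = M := by simpa [Eq'] using hb
        rw [hab] at a1
        omega
      · rw [← List.cons_append, List.pairwise_append]
        refine ⟨h3.sorted, ?_, ?_⟩
        · rw [List.pairwise_iff_forall_sublist]
          intro a b hab
          have a1 : e a = M := by simpa [Eq'] using hab.subset (by simp : a ∈ [a, b])
          have a2 : e b = M := by simpa [Eq'] using hab.subset (by simp : b ∈ [a, b])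
          omega
        · intro a ha b hb
          have a1 := h3.lt a ha
          have a2 : e b = M := by simpa [Eq'] using hb
          omega
      · intro s hs
        rw [← List.cons_append] at hs
        rcases List.mem_append.1 hs with h | h
        · have := h3.lt s h
          omega
        · have a2 : e s = M := by simpa [Eq'] using h
          omega
      · rw [tot_append, tot_const e (M := M) (Eq' e M).toList (fun s hs => by
          simpa [Eq'] using hs), Finset.length_toList]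
        have hcard : (Bl e (M + 1)).card = (Eq' e M).card + (Bl e M).card := by
          rw [← hU, Finset.card_union_of_disjoint]
          rw [Finset.disjoint_left]
          intro t ht ht'
          have a1 : e t = M := by simpa [Eq'] using ht
          have a2 : e t < M := by simpa [Bl] using ht'
          omega
        rw [hcard, Nat.mul_add, mul_one, Nat.mul_comm (Eq' e M).card M]
        omega

theorem surj (hcond : ∀ d, 1 ≤ d → d * (Eq' e d).card ≤ (Bl e d).card) :
    ∃ c : ι → ι → ℂ[X], (∀ t s, c t s ≠ 0 → (c t s).natDegree + e s + 1 ≤ e t) ∧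
      ∀ y : ι → ℂ[X], (∀ t, (y t).degree < (e t : WithBot ℕ)) → ∃ x : ι → ℂ[X], Dom e x ∧
        ∀ t, ∑ s, c t s * x s = y t := by
  by_cases h0 : ∃ s, e s = 0
  · obtain ⟨c, p, w, r, L, h, -⟩ := levels hcond h0 (Finset.univ.sup e + 1) (by omega)
    have hall : ∀ t, t ∈ Bl e (Finset.univ.sup e + 1) := by
      intro t
      have := Finset.le_sup (f := e) (Finset.mem_univ t)
      simp only [Bl, Finset.mem_filter, Finset.mem_univ, true_and]
      omega
    refine ⟨c, fun t s hs => h.deg t (hall t) s hs, fun y hy => ?_⟩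
    obtain ⟨x, hx, hx'⟩ := h.surj y hy
    exact ⟨x, hx, fun t => hx' t (hall t)⟩
  · have hempty : IsEmpty ι := by
      by_contra hne
      rw [not_isEmpty_iff] at hne
      obtain ⟨s, -, hs⟩ := Finset.exists_min_image Finset.univ e
        (Finset.univ_nonempty (α := ι))
      push Not at h0
      have h1 := hcond (e s) (Nat.one_le_iff_ne_zero.2 (h0 s))
      have h2 : (Bl e (e s)).card = 0 := by
        rw [Finset.card_eq_zero, Finset.eq_empty_iff_forall_notMem]
        intro t ht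
        have a2 : e t < e s := by simpa [Bl] using ht
        have := hs t (Finset.mem_univ t)
        omega
      have h3 : 0 < (Eq' e (e s)).card := Finset.card_pos.2 ⟨s, by simp [Eq']⟩
      rw [h2] at h1
      have h4 : e s * (Eq' e (e s)).card = 0 := by omega
      rcases Nat.mul_eq_zero.1 h4 with h | h
      · exact h0 s h
      · omega
    exact ⟨0, fun t => (hempty.false t).elim, fun y _ => ⟨0, fun t => (hempty.false t).elim,
      fun t => (hempty.false t).elim⟩⟩

end Surj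

section Mat

open Matrix

/-- The constant coefficient of the direct sum of the blocks `L_{e s}`. -/
def LA {σ : Type} [DecidableEq σ] (e : σ → ℕ) :
    Matrix (Σ s, Fin (e s)) (Σ s, Fin (e s + 1)) ℂ := fun a b =>
  if a.1 = b.1 ∧ b.2.val = a.2.val + 1 then 1 else 0

/-- The coefficient of `λ` in the direct sum of the blocks `L_{e s}`. -/
def LB {σ : Type} [DecidableEq σ] (e : σ → ℕ) :
    Matrix (Σ s, Fin (e s)) (Σ s, Fin (e s + 1)) ℂ := fun a b =>
  if a.1 = b.1 ∧ b.2.val = a.2.val then 1 else 0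

variable {σ τ : Type} [Fintype σ] [DecidableEq σ] [Fintype τ] [DecidableEq τ]

/-- The matrix of the multiplication by the polynomials `c`. -/
noncomputable def UU (e : σ → ℕ) (c : σ → σ → ℂ[X]) :
    Matrix (Σ s, Fin (e s + 1)) (Σ s, Fin (e s)) ℂ := fun a b =>
  (X ^ a.2.val * c b.1 a.1).coeff b.2.val

theorem LA_mul {e : σ → ℕ} {κ : Type} (M : Matrix (Σ s, Fin (e s + 1)) κ ℂ) (a : Σ s, Fin (e s))
    (k : κ) : (LA e * M) a k = M ⟨a.1, a.2.succ⟩ k := by
  rw [Matrix.mul_apply, Finset.sum_eq_single (⟨a.1, a.2.succ⟩ : Σ s, Fin (e s + 1))]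
  · simp [LA]
  · rintro ⟨s, i⟩ - hne
    have : ¬ (a.1 = s ∧ i.val = a.2.val + 1) := by
      rintro ⟨rfl, h⟩
      exact hne (by
        congr 1
        exact Fin.ext h)
    simp only [LA, if_neg this, zero_mul]
  · intro h
    exact absurd (Finset.mem_univ _) h

theorem LB_mul {e : σ → ℕ} {κ : Type} (M : Matrix (Σ s, Fin (e s + 1)) κ ℂ) (a : Σ s, Fin (e s))
    (k : κ) : (LB e * M) a k = M ⟨a.1, a.2.castSucc⟩ k := by
  rw [Matrix.mul_apply, Finset.sum_eq_single (⟨a.1, a.2.castSucc⟩ : Σ s, Fin (e s + 1))]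
  · simp [LB]
  · rintro ⟨s, i⟩ - hne
    have : ¬ (a.1 = s ∧ i.val = a.2.val) := by
      rintro ⟨rfl, h⟩
      exact hne (by
        congr 1
        exact Fin.ext h)
    simp only [LB, if_neg this, zero_mul]
  · intro h
    exact absurd (Finset.mem_univ _) h

theorem mul_LB {e : σ → ℕ} {κ : Type} (M : Matrix κ (Σ s, Fin (e s)) ℂ) (F : κ → σ → ℕ → ℂ)
    (hM : ∀ a b, M a b = F a b.1 b.2.val) (a : κ) (b : Σ s, Fin (e s + 1)) :
    (M * LB e) a b = if b.2.val < e b.1 then F a b.1 b.2.val else 0 := by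
  rw [Matrix.mul_apply]
  split_ifs with h
  · rw [Finset.sum_eq_single (⟨b.1, ⟨b.2.val, h⟩⟩ : Σ s, Fin (e s))]
    · simp [LB, hM]
    · rintro ⟨s, i⟩ - hne
      have : ¬ (s = b.1 ∧ b.2.val = i.val) := by
        rintro ⟨rfl, h'⟩
        exact hne (by
          congr 1
          exact Fin.ext h'.symm)
      simp only [LB, if_neg this, mul_zero]
    · intro h
      exact absurd (Finset.mem_univ _) h
  · apply Finset.sum_eq_zero
    rintro ⟨s, i⟩ -
    have : ¬ (s = b.1 ∧ b.2.val = i.val) := by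
      rintro ⟨rfl, h'⟩
      exact h (by rw [h']; exact i.2)
    simp only [LB, if_neg this, mul_zero]

theorem mul_LA {e : σ → ℕ} {κ : Type} (M : Matrix κ (Σ s, Fin (e s)) ℂ) (F : κ → σ → ℕ → ℂ)
    (hM : ∀ a b, M a b = F a b.1 b.2.val) (a : κ) (b : Σ s, Fin (e s + 1)) :
    (M * LA e) a b = if 0 < b.2.val then F a b.1 (b.2.val - 1) else 0 := by
  rw [Matrix.mul_apply]
  split_ifs with h
  · have hb := b.2.2
    rw [Finset.sum_eq_single (⟨b.1, ⟨b.2.val - 1, by omega⟩⟩ : Σ s, Fin (e s))]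
    · have : b.2.val = b.2.val - 1 + 1 := by omega
      simp only [LA, hM]
      rw [if_pos ⟨trivial, this⟩, mul_one]
    · rintro ⟨s, i⟩ - hne
      have : ¬ (s = b.1 ∧ b.2.val = i.val + 1) := by
        rintro ⟨rfl, h'⟩
        exact hne (by
          congr 1
          exact Fin.ext (by simp only; omega))
      simp only [LA, if_neg this, mul_zero]
    · intro h
      exact absurd (Finset.mem_univ _) h
  · apply Finset.sum_eq_zero
    rintro ⟨s, i⟩ -
    have : ¬ (s = b.1 ∧ b.2.val = i.val + 1) := by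
      rintro ⟨rfl, h'⟩
      omega
    simp only [LA, if_neg this, mul_zero]

theorem comm_UU (e : σ → ℕ) (c : σ → σ → ℂ[X])
    (hc : ∀ t s, c t s ≠ 0 → (c t s).natDegree + e s + 1 ≤ e t) :
    LA e * UU e c * LB e = LB e * UU e c * LA e := by
  ext a b
  rw [mul_LB (LA e * UU e c) (fun a t k => (X ^ (a.2.val + 1) * c t a.1).coeff k)
    (fun a b => by rw [LA_mul]; rfl),
    mul_LA (LB e * UU e c) (fun a t k => (X ^ a.2.val * c t a.1).coeff k)
    (fun a b => by rw [LB_mul]; rfl)]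
  have hb := b.2.2
  by_cases h0 : 0 < b.2.val
  · rw [if_pos h0]
    obtain ⟨m, hm⟩ : ∃ m, b.2.val = m + 1 := ⟨b.2.val - 1, by omega⟩
    by_cases h1 : b.2.val < e b.1
    · rw [if_pos h1, hm, pow_succ', mul_assoc, coeff_X_mul, Nat.add_sub_cancel]
    · rw [if_neg h1, hm, Nat.add_sub_cancel]
      symm
      by_cases hz : c b.1 a.1 = 0
      · rw [hz, mul_zero, coeff_zero]
      · apply coeff_eq_zero_of_natDegree_lt
        have h2 := hc _ _ hz
        have h3 : (X ^ a.2.val * c b.1 a.1).natDegree ≤ a.2.val + (c b.1 a.1).natDegree := by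
          refine le_trans natDegree_mul_le ?_
          rw [natDegree_X_pow]
        have h4 := a.2.2
        omega
  · rw [if_neg h0]
    have : b.2.val = 0 := by omega
    rw [this, pow_succ', mul_assoc, coeff_X_mul_zero]
    split_ifs <;> rfl

/-- A block Hankel matrix. -/
def HH (e : σ → ℕ) (f : τ → ℕ) (η : σ → τ → ℕ → ℂ) :
    Matrix (Σ s, Fin (e s + 1)) (Σ t, Fin (f t + 1)) ℂ := fun a b =>
  η a.1 b.1 (a.2.val + b.2.val)

theorem comm_HH (e : σ → ℕ) (f : τ → ℕ) (η : σ → τ → ℕ → ℂ) :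
    LA e * HH e f η * (LB f)ᵀ = LB e * HH e f η * (LA f)ᵀ := by
  have h1 : ∀ (M : Matrix (Σ s, Fin (e s)) (Σ t, Fin (f t + 1)) ℂ) a b,
      (M * (LB f)ᵀ) a b = M a ⟨b.1, b.2.castSucc⟩ := by
    intro M a b
    have := LB_mul (e := f) Mᵀ b a
    rw [← Matrix.transpose_apply (M * (LB f)ᵀ), Matrix.transpose_mul, Matrix.transpose_transpose,
      this, Matrix.transpose_apply]
  have h2 : ∀ (M : Matrix (Σ s, Fin (e s)) (Σ t, Fin (f t + 1)) ℂ) a b,
      (M * (LA f)ᵀ) a b = M a ⟨b.1, b.2.succ⟩ := by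
    intro M a b
    have := LA_mul (e := f) Mᵀ b a
    rw [← Matrix.transpose_apply (M * (LA f)ᵀ), Matrix.transpose_mul, Matrix.transpose_transpose,
      this, Matrix.transpose_apply]
  ext a b
  rw [h1, h2, LA_mul, LB_mul]
  simp only [HH, Fin.val_succ, Fin.val_castSucc]
  congr 1
  omega

/-- The coefficient vector of a family of polynomials. -/
noncomputable def cf (e : σ → ℕ) (x : σ → ℂ[X]) : (Σ s, Fin (e s + 1)) → ℂ := fun a =>
  (x a.1).coeff a.2.val

theorem vecMul_UU (e : σ → ℕ) (c : σ → σ → ℂ[X]) (x : σ → ℂ[X]) (hx : Dom e x)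
    (b : Σ s, Fin (e s)) :
    (cf e x ᵥ* UU e c) b = (∑ s, c b.1 s * x s).coeff b.2.val := by
  rw [Matrix.vecMul, dotProduct, Fintype.sum_sigma, finsetSum_coeff]
  apply Finset.sum_congr rfl
  intro s _
  have h1 : x s = ∑ i ∈ Finset.range (e s + 1), C ((x s).coeff i) * X ^ i := by
    by_cases h0 : x s = 0
    · rw [h0]
      simp
    · exact Polynomial.as_sum_range_C_mul_X_pow' _ ((natDegree_lt_iff_degree_lt h0).2 (hx s))
  have h2 : (c b.1 s * x s).coeff b.2.val =
      ∑ i ∈ Finset.range (e s + 1), (x s).coeff i * (X ^ i * c b.1 s).coeff b.2.val := by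
    conv_lhs => rw [h1, Finset.mul_sum, finsetSum_coeff]
    apply Finset.sum_congr rfl
    intro i _
    rw [show c b.1 s * (C ((x s).coeff i) * X ^ i) = C ((x s).coeff i) * (X ^ i * c b.1 s) by ring,
      coeff_C_mul]
  rw [h2, Finset.sum_range]
  rfl

theorem UU_surj (e : σ → ℕ) (hcond : ∀ d, 1 ≤ d → d * (Eq' e d).card ≤ (Bl e d).card) :
    ∃ c : σ → σ → ℂ[X], (∀ t s, c t s ≠ 0 → (c t s).natDegree + e s + 1 ≤ e t) ∧
      ∀ z, ∃ x, x ᵥ* UU e c = z := by
  obtain ⟨c, hc, hs⟩ := surj hcond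
  refine ⟨c, hc, fun z => ?_⟩
  obtain ⟨x, hx, hx'⟩ := hs (fun t => ∑ k : Fin (e t), C (z ⟨t, k⟩) * X ^ k.val) (by
    intro t
    rw [← mem_degreeLT]
    apply Submodule.sum_mem
    intro k _
    rw [mem_degreeLT]
    refine lt_of_le_of_lt (degree_C_mul_X_pow_le _ _) ?_
    exact_mod_cast k.2)
  refine ⟨cf e x, ?_⟩
  funext b
  rw [vecMul_UU e c x hx, hx' b.1, finsetSum_coeff]
  rw [Finset.sum_eq_single b.2]
  · rw [coeff_C_mul_X_pow, if_pos rfl]
  · intro k _ hk
    rw [coeff_C_mul_X_pow, if_neg (fun h => hk (Fin.ext h.symm))]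
  · intro h
    exact absurd (Finset.mem_univ _) h

/-- Evaluation of the block `s` at `ζ`. -/
noncomputable def ev (e : σ → ℕ) (s : σ) (ζ : ℂ) : ((Σ s, Fin (e s + 1)) → ℂ) →ₗ[ℂ] ℂ :=
  ∑ i : Fin (e s + 1), (ζ ^ i.val) • LinearMap.proj (⟨s, i⟩ : Σ s, Fin (e s + 1))

theorem ev_apply (e : σ → ℕ) (s : σ) (ζ : ℂ) (x : (Σ s, Fin (e s + 1)) → ℂ) :
    ev e s ζ x = ∑ i : Fin (e s + 1), ζ ^ i.val * x ⟨s, i⟩ := by
  simp [ev]

theorem exists_poly (e : σ → ℕ) (x : (Σ s, Fin (e s + 1)) → ℂ) (hx : x ≠ 0) :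
    ∃ (s : σ) (P : ℂ[X]), P ≠ 0 ∧ ∀ ζ, ev e s ζ x = P.eval ζ := by
  obtain ⟨⟨s, i⟩, hi⟩ := Function.ne_iff.1 hx
  refine ⟨s, ∑ i : Fin (e s + 1), C (x ⟨s, i⟩) * X ^ i.val, ?_, ?_⟩
  · intro h
    have h1 := congrArg (fun p => coeff p i.val) h
    simp only [finsetSum_coeff, coeff_zero, coeff_C_mul_X_pow] at h1
    rw [Finset.sum_eq_single i] at h1
    · rw [if_pos rfl] at h1
      exact hi h1
    · intro k _ hk
      rw [if_neg (fun h => hk (Fin.ext h.symm))]
    · intro h
      exact absurd (Finset.mem_univ _) h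
  · intro ζ
    rw [ev_apply, eval_finsetSum]
    apply Finset.sum_congr rfl
    intro k _
    rw [eval_mul, eval_C, eval_pow, eval_X, mul_comm]

theorem cut {V : Type} [AddCommGroup V] [Module ℂ V] [FiniteDimensional ℂ V]
    (K : Submodule ℂ V) (φ : V →ₗ[ℂ] ℂ) (x : V) (hx : x ∈ K) (hφ : φ x ≠ 0) (n : ℕ)
    (hn : Module.finrank ℂ K = n + 1) :
    ∃ K' : Submodule ℂ V, Module.finrank ℂ K' = n ∧ ∀ y ∈ K, φ y = 0 → y ∈ K' := by
  let f : K →ₗ[ℂ] ℂ := φ.comp K.subtype
  refine ⟨(LinearMap.ker f).map K.subtype, ?_, ?_⟩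
  · have hne : f ≠ 0 := by
      intro h
      apply hφ
      have := congrArg (fun g : K →ₗ[ℂ] ℂ => g ⟨x, hx⟩) h
      exact this
    have hsurj : Function.Surjective f := LinearMap.surjective hne
    have h1 := LinearMap.finrank_range_add_finrank_ker f
    rw [LinearMap.range_eq_top.2 hsurj, finrank_top, Module.finrank_self, hn] at h1
    rw [Submodule.finrank_map_subtype_eq]
    omega
  · intro y hy hy0
    exact ⟨⟨y, hy⟩, hy0, rfl⟩

theorem pts (e : σ → ℕ) (f : τ → ℕ) : ∀ (n : ℕ)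
    (K1 : Submodule ℂ ((Σ s, Fin (e s + 1)) → ℂ)) (K2 : Submodule ℂ ((Σ t, Fin (f t + 1)) → ℂ)),
    Module.finrank ℂ K1 = n → Module.finrank ℂ K2 = n →
    ∃ (ζ : Fin n → ℂ) (a : Fin n → σ) (b : Fin n → τ),
      (∀ x ∈ K1, (∀ k, ev e (a k) (ζ k) x = 0) → x = 0) ∧
      (∀ y ∈ K2, (∀ k, ev f (b k) (ζ k) y = 0) → y = 0) := by
  intro n
  induction n with
  | zero =>
    intro K1 K2 h1 h2
    refine ⟨Fin.elim0, Fin.elim0, Fin.elim0, fun x hx _ => ?_, fun y hy _ => ?_⟩
    · rw [Submodule.finrank_eq_zero] at h1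
      rw [h1] at hx
      exact (Submodule.mem_bot ℂ).1 hx
    · rw [Submodule.finrank_eq_zero] at h2
      rw [h2] at hy
      exact (Submodule.mem_bot ℂ).1 hy
  | succ n ih =>
    intro K1 K2 h1 h2
    have hK1 : K1 ≠ ⊥ := by
      intro h
      rw [h, finrank_bot] at h1
      omega
    have hK2 : K2 ≠ ⊥ := by
      intro h
      rw [h, finrank_bot] at h2
      omega
    obtain ⟨x0, hx0, hx0'⟩ := Submodule.exists_mem_ne_zero_of_ne_bot hK1
    obtain ⟨y0, hy0, hy0'⟩ := Submodule.exists_mem_ne_zero_of_ne_bot hK2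
    obtain ⟨s, P, hP, hPe⟩ := exists_poly e x0 hx0'
    obtain ⟨t, Q, hQ, hQe⟩ := exists_poly f y0 hy0'
    have hPQ : ∃ ξ : ℂ, (P * Q).eval ξ ≠ 0 := by
      by_contra hne
      push Not at hne
      exact (mul_ne_zero hP hQ) (Polynomial.funext (fun r => by rw [hne r, eval_zero]))
    obtain ⟨ξ, hξ⟩ := hPQ
    rw [eval_mul] at hξ
    obtain ⟨K1', g1, g2⟩ := cut K1 (ev e s ξ) x0 hx0 (by
      rw [hPe]; exact left_ne_zero_of_mul hξ) n h1
    obtain ⟨K2', g3, g4⟩ := cut K2 (ev f t ξ) y0 hy0 (by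
      rw [hQe]; exact right_ne_zero_of_mul hξ) n h2
    obtain ⟨ζ, a, b, k1, k2⟩ := ih K1' K2' g1 g3
    refine ⟨Fin.cons ξ ζ, Fin.cons s a, Fin.cons t b, ?_, ?_⟩
    · intro x hx h
      exact k1 x (g2 x hx (by simpa using h 0)) (fun k => by simpa using h k.succ)
    · intro x hx h
      exact k2 x (g4 x hx (by simpa using h 0)) (fun k => by simpa using h k.succ)

/-- The dimension of the left kernel. -/
theorem finrank_ker (e : σ → ℕ) (c : σ → σ → ℂ[X]) (hs : ∀ z, ∃ x, x ᵥ* UU e c = z) :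
    Module.finrank ℂ (LinearMap.ker (UU e c).vecMulLinear) = Fintype.card σ := by
  have h1 := LinearMap.finrank_range_add_finrank_ker (UU e c).vecMulLinear
  have h2 : LinearMap.range (UU e c).vecMulLinear = ⊤ := LinearMap.range_eq_top.2 hs
  rw [h2, finrank_top, Module.finrank_fintype_fun_eq_card, Module.finrank_fintype_fun_eq_card,
    Fintype.card_sigma, Fintype.card_sigma] at h1
  simp only [Fintype.card_fin, Finset.sum_add_distrib, Finset.sum_const, Finset.card_univ,
    smul_eq_mul, mul_one] at h1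
  omega

theorem HH_apply (e : σ → ℕ) (f : τ → ℕ) (n : ℕ) (ζ : Fin n → ℂ) (a : Fin n → σ) (b : Fin n → τ)
    (x : (Σ s, Fin (e s + 1)) → ℂ) (y : (Σ t, Fin (f t + 1)) → ℂ) :
    x ⬝ᵥ (HH e f (fun s t k => ∑ j, if a j = s ∧ b j = t then ζ j ^ k else 0) *ᵥ y) =
      ∑ j, ev e (a j) (ζ j) x * ev f (b j) (ζ j) y := by
  have h1 : ∀ j, ev e (a j) (ζ j) x =
      ∑ p : (Σ s, Fin (e s + 1)), if a j = p.1 then ζ j ^ p.2.val * x p else 0 := by
    intro j
    rw [ev_apply, Fintype.sum_sigma, Finset.sum_eq_single (a j)]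
    · simp
    · intro s _ hs
      apply Finset.sum_eq_zero
      intro i _
      exact if_neg (fun h => hs h.symm)
    · intro h
      exact absurd (Finset.mem_univ _) h
  have h2 : ∀ j, ev f (b j) (ζ j) y =
      ∑ p : (Σ t, Fin (f t + 1)), if b j = p.1 then ζ j ^ p.2.val * y p else 0 := by
    intro j
    rw [ev_apply, Fintype.sum_sigma, Finset.sum_eq_single (b j)]
    · simp
    · intro s _ hs
      apply Finset.sum_eq_zero
      intro i _
      exact if_neg (fun h => hs h.symm)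
    · intro h
      exact absurd (Finset.mem_univ _) h
  have h3 : ∀ (p : Σ s, Fin (e s + 1)) (q : Σ t, Fin (f t + 1)),
      x p * ((∑ j, if a j = p.1 ∧ b j = q.1 then ζ j ^ (p.2.val + q.2.val) else 0) * y q) =
      ∑ j, (if a j = p.1 then ζ j ^ p.2.val * x p else 0) *
        (if b j = q.1 then ζ j ^ q.2.val * y q else 0) := by
    intro p q
    rw [Finset.sum_mul, Finset.mul_sum]
    apply Finset.sum_congr rfl
    intro j _
    by_cases k1 : a j = p.1
    · by_cases k2 : b j = q.1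
      · rw [if_pos ⟨k1, k2⟩, if_pos k1, if_pos k2, pow_add]
        ring
      · rw [if_neg (fun h => k2 h.2), if_neg k2]
        ring
    · rw [if_neg (fun h => k1 h.1), if_neg k1]
      ring
  calc x ⬝ᵥ (HH e f (fun s t k => ∑ j, if a j = s ∧ b j = t then ζ j ^ k else 0) *ᵥ y)
      = ∑ p, ∑ q, x p * ((∑ j, if a j = p.1 ∧ b j = q.1 then ζ j ^ (p.2.val + q.2.val) else 0)
          * y q) := by
        simp only [dotProduct, Matrix.mulVec, HH, Finset.mul_sum]
    _ = ∑ p, ∑ q, ∑ j, (if a j = p.1 then ζ j ^ p.2.val * x p else 0) *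
        (if b j = q.1 then ζ j ^ q.2.val * y q else 0) :=
        Finset.sum_congr rfl (fun p _ => Finset.sum_congr rfl (fun q _ => h3 p q))
    _ = ∑ p, ∑ j, ∑ q, (if a j = p.1 then ζ j ^ p.2.val * x p else 0) *
        (if b j = q.1 then ζ j ^ q.2.val * y q else 0) :=
        Finset.sum_congr rfl (fun p _ => Finset.sum_comm)
    _ = ∑ j, ∑ p, ∑ q, (if a j = p.1 then ζ j ^ p.2.val * x p else 0) *
        (if b j = q.1 then ζ j ^ q.2.val * y q else 0) := Finset.sum_comm
    _ = ∑ j, ev e (a j) (ζ j) x * ev f (b j) (ζ j) y := by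
        apply Finset.sum_congr rfl
        intro j _
        rw [h1, h2, Finset.sum_mul_sum]

/-- Existence of a nondegenerate block Hankel matrix. -/
theorem exists_HH (e : σ → ℕ) (f : τ → ℕ) (K1 : Submodule ℂ ((Σ s, Fin (e s + 1)) → ℂ))
    (K2 : Submodule ℂ ((Σ t, Fin (f t + 1)) → ℂ)) (h : Module.finrank ℂ K1 = Module.finrank ℂ K2) :
    ∃ η : σ → τ → ℕ → ℂ, ∀ y ∈ K2, (∀ x ∈ K1, x ⬝ᵥ (HH e f η *ᵥ y) = 0) → y = 0 := by
  obtain ⟨ζ, a, b, h1, h2⟩ := pts e f (Module.finrank ℂ K2) K1 K2 h rfl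
  refine ⟨fun s t k => ∑ j, if a j = s ∧ b j = t then ζ j ^ k else 0, ?_⟩
  intro y hy hxy
  apply h2 y hy
  intro k
  let Φ : K1 →ₗ[ℂ] (Fin (Module.finrank ℂ K2) → ℂ) :=
    LinearMap.pi (fun j => (ev e (a j) (ζ j)).comp K1.subtype)
  have hinj : Function.Injective Φ := by
    rw [← LinearMap.ker_eq_bot, LinearMap.ker_eq_bot']
    intro x hx
    apply Subtype.ext
    exact h1 x x.2 (fun j => congrFun hx j)
  have hsurj : Function.Surjective Φ := by
    rw [← LinearMap.injective_iff_surjective_of_finrank_eq_finrank]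
    · exact hinj
    · rw [Module.finrank_fin_fun, h]
  obtain ⟨x, hx⟩ := hsurj (Pi.single k 1)
  have h3 := hxy x x.2
  rw [HH_apply] at h3
  have h4 : ∀ j, ev e (a j) (ζ j) x = (Pi.single k (1 : ℂ) : Fin _ → ℂ) j := fun j =>
    congrFun hx j
  simp only [h4] at h3
  rw [Finset.sum_eq_single k] at h3
  · simpa using h3
  · intro j _ hj
    rw [Pi.single_eq_of_ne hj, zero_mul]
  · intro h
    exact absurd (Finset.mem_univ _) h

/-- The singular part of the matrix `E`. -/
theorem exists_E (e : σ → ℕ) (f : τ → ℕ) (hc : Fintype.card σ = Fintype.card τ)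
    (he : ∀ d, 1 ≤ d → d * (Eq' e d).card ≤ (Bl e d).card)
    (hf : ∀ d, 1 ≤ d → d * (Eq' f d).card ≤ (Bl f d).card) :
    ∃ E : Matrix ((Σ s, Fin (e s + 1)) ⊕ (Σ t, Fin (f t))) ((Σ s, Fin (e s)) ⊕ (Σ t, Fin (f t + 1)))
      ℂ, (∀ v, E *ᵥ v = 0 → v = 0) ∧
      fromBlocks (LA e) 0 0 (LA f)ᵀ * E * fromBlocks (LB e) 0 0 (LB f)ᵀ =
      fromBlocks (LB e) 0 0 (LB f)ᵀ * E * fromBlocks (LA e) 0 0 (LA f)ᵀ := by
  obtain ⟨c, hc1, hc2⟩ := UU_surj e he
  obtain ⟨c', hc1', hc2'⟩ := UU_surj f hf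
  obtain ⟨η, hη⟩ := exists_HH e f (LinearMap.ker (UU e c).vecMulLinear)
    (LinearMap.ker (UU f c').vecMulLinear) (by
      rw [finrank_ker e c hc2, finrank_ker f c' hc2', hc])
  refine ⟨fromBlocks (UU e c) (HH e f η) 0 (UU f c')ᵀ, ?_, ?_⟩
  · intro v hv
    obtain ⟨v1, v2, rfl⟩ : ∃ v1 v2, v = Sum.elim v1 v2 :=
      ⟨v ∘ Sum.inl, v ∘ Sum.inr, (Sum.elim_comp_inl_inr v).symm⟩
    rw [fromBlocks_mulVec] at hv
    have hv1 : UU e c *ᵥ v1 + HH e f η *ᵥ v2 = 0 := by
      funext i
      have := congrFun hv (Sum.inl i)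
      simpa using this
    have hv2 : v2 ᵥ* UU f c' = 0 := by
      funext i
      have := congrFun hv (Sum.inr i)
      simpa [mulVec_transpose] using this
    have h2 : v2 = 0 := by
      apply hη v2 hv2
      intro x hx
      have hx' : x ᵥ* UU e c = 0 := hx
      have h3 : x ⬝ᵥ (UU e c *ᵥ v1 + HH e f η *ᵥ v2) = 0 := by rw [hv1, dotProduct_zero]
      rw [dotProduct_add, dotProduct_mulVec, hx', zero_dotProduct, zero_add] at h3
      exact h3
    rw [h2, mulVec_zero, add_zero] at hv1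
    have h1 : v1 = 0 := by
      funext i
      obtain ⟨x, hx⟩ := hc2 (Pi.single i 1)
      have h3 : x ⬝ᵥ (UU e c *ᵥ v1) = 0 := by rw [hv1, dotProduct_zero]
      rw [dotProduct_mulVec, hx, single_dotProduct, one_mul] at h3
      exact h3
    rw [h1, h2]
    funext i
    cases i <;> rfl
  · have h1 := comm_UU e c hc1
    have h2 := comm_HH e f η
    have h3 : (LA f)ᵀ * (UU f c')ᵀ * (LB f)ᵀ = (LB f)ᵀ * (UU f c')ᵀ * (LA f)ᵀ := by
      have := congrArg Matrix.transpose (comm_UU f c' hc1')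
      simp only [Matrix.transpose_mul, ← Matrix.mul_assoc] at this
      exact this.symm
    simp only [fromBlocks_multiply, Matrix.mul_zero, Matrix.zero_mul, add_zero, zero_add, h1, h2, h3]

/-- The direct sum of the Jordan blocks `J_{γ k}(μ k)`. -/
def JJ {ρ : Type} [DecidableEq ρ] (γ : ρ → ℕ) (μ : ρ → ℂ) :
    Matrix (Σ k, Fin (γ k)) (Σ k, Fin (γ k)) ℂ := fun a b =>
  if a.1 = b.1 then (if b.2.val = a.2.val then μ a.1 else if b.2.val = a.2.val + 1 then 1 else 0)
  else 0

/-- Row indices of the Kronecker canonical form: blocks `L_ε` (`ε` rows), `L_δᵀ` (`δ + 1` rows),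
`J_γ`, `N_β`. -/
abbrev Rows {σ τ ρ₁ ρ₂ : Type} (ε : σ → ℕ) (δ : τ → ℕ) (γ : ρ₁ → ℕ) (β : ρ₂ → ℕ) : Type :=
  ((Σ s, Fin (ε s)) ⊕ (Σ t, Fin (δ t + 1))) ⊕ ((Σ k, Fin (γ k)) ⊕ (Σ k, Fin (β k)))

/-- Column indices of the Kronecker canonical form: blocks `L_ε` (`ε + 1` columns), `L_δᵀ`
(`δ` columns), `J_γ`, `N_β`. -/
abbrev Cols {σ τ ρ₁ ρ₂ : Type} (ε : σ → ℕ) (δ : τ → ℕ) (γ : ρ₁ → ℕ) (β : ρ₂ → ℕ) : Type :=
  ((Σ s, Fin (ε s + 1)) ⊕ (Σ t, Fin (δ t))) ⊕ ((Σ k, Fin (γ k)) ⊕ (Σ k, Fin (β k)))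

/-- The constant coefficient of the Kronecker canonical form. -/
def canA {ρ₁ ρ₂ : Type} [DecidableEq ρ₁] [DecidableEq ρ₂] (ε : σ → ℕ) (δ : τ → ℕ) (γ : ρ₁ → ℕ)
    (μ : ρ₁ → ℂ) (β : ρ₂ → ℕ) : Matrix (Rows ε δ γ β) (Cols ε δ γ β) ℂ :=
  fromBlocks (fromBlocks (LA ε) 0 0 (LA δ)ᵀ) 0 0 (fromBlocks (JJ γ μ) 0 0 1)

/-- The coefficient of `λ` of the Kronecker canonical form. -/
def canB {ρ₁ ρ₂ : Type} [DecidableEq ρ₁] [DecidableEq ρ₂] (ε : σ → ℕ) (δ : τ → ℕ) (γ : ρ₁ → ℕ)
    (β : ρ₂ → ℕ) : Matrix (Rows ε δ γ β) (Cols ε δ γ β) ℂ :=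
  fromBlocks (fromBlocks (LB ε) 0 0 (LB δ)ᵀ) 0 0 (fromBlocks 1 0 0 (JJ β 0))

theorem card_of_inv {m n : Type} [Fintype m] [DecidableEq m] [Fintype n] [DecidableEq n]
    (S : Matrix m n ℂ) (S' : Matrix n m ℂ) (h1 : S * S' = 1) (h2 : S' * S = 1) :
    Fintype.card m = Fintype.card n := by
  have e : (n → ℂ) ≃ₗ[ℂ] (m → ℂ) := LinearEquiv.ofLinearMap (Matrix.toLin' S) (Matrix.toLin' S')
    (by rw [← Matrix.toLin'_mul, h1, Matrix.toLin'_one])
    (by rw [← Matrix.toLin'_mul, h2, Matrix.toLin'_one])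
  have := e.finrank_eq
  rw [Module.finrank_fintype_fun_eq_card, Module.finrank_fintype_fun_eq_card] at this
  exact this.symm

/-- The affirmative answer to the question. -/
theorem result {ι ρ₁ ρ₂ : Type} [Fintype ι] [DecidableEq ι] [Fintype ρ₁] [DecidableEq ρ₁]
    [Fintype ρ₂] [DecidableEq ρ₂] (ε : σ → ℕ) (δ : τ → ℕ) (γ : ρ₁ → ℕ) (μ : ρ₁ → ℂ) (β : ρ₂ → ℕ)
    (hε : ∀ d, 1 ≤ d → d * (Finset.univ.filter (fun s => ε s = d)).card ≤
      (Finset.univ.filter (fun s => ε s < d)).card)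
    (hδ : ∀ d, 1 ≤ d → d * (Finset.univ.filter (fun t => δ t = d)).card ≤
      (Finset.univ.filter (fun t => δ t < d)).card)
    (A B : Matrix ι ι ℂ) (S : Matrix (Rows ε δ γ β) ι ℂ) (S' : Matrix ι (Rows ε δ γ β) ℂ)
    (T : Matrix ι (Cols ε δ γ β) ℂ) (T' : Matrix (Cols ε δ γ β) ι ℂ)
    (hS : S * S' = 1) (hS' : S' * S = 1) (hT : T * T' = 1) (hT' : T' * T = 1)
    (hA : S * A * T = canA ε δ γ μ β) (hB : S * B * T = canB ε δ γ β) :
    ∃ E : Matrix ι ι ℂ, IsUnit E ∧ (E * A) * (E * B) = (E * B) * (E * A) := by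
  have hcard : Fintype.card σ = Fintype.card τ := by
    have h1 := card_of_inv S S' hS hS'
    have h2 := card_of_inv T T' hT hT'
    simp only [Fintype.card_sum, Fintype.card_sigma, Fintype.card_fin, Finset.sum_add_distrib,
      Finset.sum_const, Finset.card_univ, smul_eq_mul, mul_one] at h1 h2
    omega
  obtain ⟨E0, hE0, hE0'⟩ := exists_E ε δ hcard hε hδ
  let E1 : Matrix (Cols ε δ γ β) (Rows ε δ γ β) ℂ := fromBlocks E0 0 0 1
  have hcomm : canA ε δ γ μ β * E1 * canB ε δ γ β = canB ε δ γ β * E1 * canA ε δ γ μ β := by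
    simp only [canA, canB, E1]
    rw [fromBlocks_multiply, fromBlocks_multiply, fromBlocks_multiply, fromBlocks_multiply]
    simp only [Matrix.mul_zero, Matrix.zero_mul, add_zero, zero_add, Matrix.mul_one, hE0']
    congr 1
    rw [fromBlocks_multiply, fromBlocks_multiply]
    simp
  have hinj : ∀ v, E1 *ᵥ v = 0 → v = 0 := by
    intro v hv
    obtain ⟨v1, v2, rfl⟩ : ∃ v1 v2, v = Sum.elim v1 v2 :=
      ⟨v ∘ Sum.inl, v ∘ Sum.inr, (Sum.elim_comp_inl_inr v).symm⟩
    simp only [E1] at hv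
    rw [fromBlocks_mulVec] at hv
    have hv1 : E0 *ᵥ v1 = 0 := by
      funext i
      have := congrFun hv (Sum.inl i)
      simpa using this
    have hv2 : v2 = 0 := by
      funext i
      have := congrFun hv (Sum.inr i)
      simpa using this
    rw [hE0 v1 hv1, hv2]
    funext i
    cases i <;> rfl
  have hA' : A = S' * canA ε δ γ μ β * T' := by
    rw [← hA]
    simp only [Matrix.mul_assoc, hT, Matrix.mul_one]
    rw [← Matrix.mul_assoc, hS', Matrix.one_mul]
  have hB' : B = S' * canB ε δ γ β * T' := by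
    rw [← hB]
    simp only [Matrix.mul_assoc, hT, Matrix.mul_one]
    rw [← Matrix.mul_assoc, hS', Matrix.one_mul]
  refine ⟨T * E1 * S, ?_, ?_⟩
  · rw [← Matrix.mulVec_injective_iff_isUnit]
    intro v1 v2 hv
    have h1 : (T * E1 * S) *ᵥ (v1 - v2) = 0 := by
      rw [Matrix.mulVec_sub]
      exact sub_eq_zero.2 hv
    rw [← Matrix.mulVec_mulVec, ← Matrix.mulVec_mulVec] at h1
    have h2 : E1 *ᵥ (S *ᵥ (v1 - v2)) = 0 := by
      have := congrArg (fun u => T' *ᵥ u) h1
      simpa [Matrix.mulVec_mulVec, ← Matrix.mul_assoc, hT'] using this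
    have h3 := hinj _ h2
    have h4 : v1 - v2 = 0 := by
      have := congrArg (fun u => S' *ᵥ u) h3
      simpa [Matrix.mulVec_mulVec, hS'] using this
    exact sub_eq_zero.1 h4
  · have e1 : T * E1 * S * A = T * E1 * canA ε δ γ μ β * T' := by
      rw [hA']
      calc T * E1 * S * (S' * canA ε δ γ μ β * T') = T * E1 * (S * S') * canA ε δ γ μ β * T' := by
            simp only [Matrix.mul_assoc]
        _ = _ := by rw [hS, Matrix.mul_one]
    have e2 : T * E1 * S * B = T * E1 * canB ε δ γ β * T' := by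
      rw [hB']
      calc T * E1 * S * (S' * canB ε δ γ β * T') = T * E1 * (S * S') * canB ε δ γ β * T' := by
            simp only [Matrix.mul_assoc]
        _ = _ := by rw [hS, Matrix.mul_one]
    rw [e1, e2]
    calc T * E1 * canA ε δ γ μ β * T' * (T * E1 * canB ε δ γ β * T')
        = T * E1 * (canA ε δ γ μ β * (T' * T) * E1 * canB ε δ γ β) * T' := by
          simp only [Matrix.mul_assoc]
      _ = T * E1 * (canB ε δ γ β * (T' * T) * E1 * canA ε δ γ μ β) * T' := by
          rw [hT', Matrix.mul_one, Matrix.mul_one, hcomm]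
      _ = T * E1 * canB ε δ γ β * T' * (T * E1 * canA ε δ γ μ β * T') := by
          simp only [Matrix.mul_assoc]

end Mat

end Pool.Agent.Results.MP_3c4fb9_al.CommutingCoefficients
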